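import Pool.Agent.Lib.MP_82b75a_lc.Main

/-!
RCA_0 + CADS does not prove COH.
-/

namespace Pool.Agent.Results.MP_82b75a_lc.CadsNotCoh

open Pool.Agent.Lib.MP_82b75a_lc

/-- There is a countable model of `RCA₀ + CADS` in which `COH` fails. -/
theorem result : ∃ A : L2, Countable A.N ∧ RCA0 A ∧ CADS A ∧ ¬ COH A :=
  main

end Pool.Agent.Results.MP_82b75a_lc.CadsNotCoh
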